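import Pool.Agent.W601.SQ.Stm

set_option autoImplicit false
open scoped Classical Cardinal
open Filter Topology

/-! Project SQ, part SUBC1. -/

namespace Pool.Agent.W91.SQ

open Pool.Agent.W601.SQ

lemma nm_add_le (x y : ℝ) : nm (x + y) ≤ nm x + nm y := by
  unfold nm
  rw [AddCircle.coe_add]
  exact norm_add_le _ _

lemma nm_zero : nm 0 = 0 := by
  unfold nm
  simp

lemma nm_sum_le (s : Finset ℝ) (f : ℝ → ℝ) : nm (∑ i ∈ s, f i) ≤ ∑ i ∈ s, nm (f i) := by
  induction s using Finset.induction_on with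
  | empty => simp [nm_zero]
  | insert i s hi ih =>
    rw [Finset.sum_insert hi, Finset.sum_insert hi]
    exact (nm_add_le _ _).trans (by linarith)

lemma geo_sum (s : Finset ℝ) (rk : ℝ → ℕ) (h : Set.InjOn rk (s : Set ℝ)) :
    ∑ i ∈ s, (1 / 2 : ℝ) ^ (rk i) / 32 ≤ 1 / 16 := by
  have h1 : ∑ i ∈ s, (1 / 2 : ℝ) ^ (rk i) = ∑ k ∈ s.image rk, (1 / 2 : ℝ) ^ k := by
    rw [Finset.sum_image]
    exact h
  have h2 : ∑ k ∈ s.image rk, (1 / 2 : ℝ) ^ k ≤ 2 := by
    have := Summable.sum_le_tsum (s.image rk) (fun i _ => by positivity)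
      summable_geometric_two
    rw [tsum_geometric_two] at this
    exact this
  rw [← Finset.sum_div, h1]
  linarith

theorem subc1 : S_CAN → S_CANL → S_SUBC1 := by
  intro hcan hcanl t ht J
  obtain ⟨hk, a, ha0, ha⟩ := ht
  have hne : ∀ j, t j a ≠ 0 := by
    intro j
    induction j with
    | zero => exact ha0
    | succ j ih =>
      have h1 := ha j
      have h2 : 0 < |t j a| := abs_pos.mpr ih
      intro h0
      rw [h0, abs_zero] at h1
      omega
  set B : Set ℝ := ⋃ j, ((t j).support : Set ℝ) with hB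
  have hBc : B.Countable := Set.countable_iUnion (fun j => (t j).support.countable_toSet)
  obtain ⟨rk, hrk⟩ := Set.countable_iff_exists_injOn.mp hBc
  refine ⟨fun β => if β = a then
      {y : ℝ | 0 ≤ y ∧ y ≤ 4 ∧ ∀ j, nm ((t j a : ℝ) * y - tg J j) ≤ 1 / 16}
    else if β ∈ B then {y : ℝ | ∀ j, nm ((t j β : ℝ) * y) ≤ (1 / 2 : ℝ) ^ (rk β) / 32}
    else Set.univ, ?_, ?_, ?_⟩
  · intro β
    dsimp only
    split_ifs with h1 h2
    · have := hcan (fun j => t j a) (fun j => tg J j) (1 / 16) 0 4 (by norm_num) (by norm_num) ha0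
        (by
          intro j
          have h := ha j
          have h' : (64 : ℝ) * |(t j a : ℝ)| ≤ |(t (j + 1) a : ℝ)| := by exact_mod_cast h
          calc (4 : ℝ) / (1 / 16) * |(t j a : ℝ)| = 64 * |(t j a : ℝ)| := by norm_num
            _ ≤ _ := h')
        (by
          have h : 1 ≤ |t 0 a| := Int.one_le_abs ha0
          have h' : (1 : ℝ) ≤ |(t 0 a : ℝ)| := by exact_mod_cast h
          linarith)
      exact this
    · exact hcanl (fun j => t j β) ((1 / 2 : ℝ) ^ (rk β) / 32) (by positivity) (hk β)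
    · rw [Cardinal.mk_univ_real]
  · apply (hBc.insert a).mono
    intro β hβ
    simp only [Set.mem_ofPred_eq] at hβ
    by_contra hcon
    apply hβ
    have h1 : β ≠ a := fun h => hcon (by rw [h]; exact Set.mem_insert _ _)
    have h2 : β ∉ B := fun h => hcon (Set.mem_insert_of_mem _ h)
    rw [if_neg h1, if_neg h2]
  · intro y hy j
    have hya := hy a
    dsimp only at hya
    rw [if_pos rfl] at hya
    obtain ⟨-, -, hya⟩ := hya
    have hmem : a ∈ (t j).support := Finsupp.mem_support_iff.mpr (hne j)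
    have hsum : ip (t j) y - tg J j
        = ((t j a : ℝ) * y a - tg J j) + ∑ i ∈ (t j).support.erase a, (t j i : ℝ) * y i := by
      unfold ip Finsupp.sum
      rw [← Finset.add_sum_erase _ _ hmem]
      ring
    rw [hsum]
    refine (nm_add_le _ _).trans ?_
    have h1 := hya j
    have h2 : nm (∑ i ∈ (t j).support.erase a, (t j i : ℝ) * y i) ≤ 1 / 16 := by
      refine (nm_sum_le _ _).trans ?_
      refine (Finset.sum_le_sum ?_).trans (geo_sum ((t j).support.erase a) rk ?_)
      · intro i hi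
        obtain ⟨hia, hi'⟩ := Finset.mem_erase.mp hi
        have hiB : i ∈ B := Set.mem_iUnion.mpr ⟨j, hi'⟩
        have hyi := hy i
        dsimp only at hyi
        rw [if_neg hia, if_pos hiB] at hyi
        exact hyi j
      · apply hrk.mono
        intro i hi
        have hi' := Finset.mem_of_mem_erase (Finset.mem_coe.mp hi)
        exact Set.mem_iUnion.mpr ⟨j, hi'⟩
    linarith

end Pool.Agent.W91.SQ
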